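import Pool.Agent.Zk45.DR.AvgI

/-!
# Integers `m² + p` with `m` in an arbitrary thin set

Let `A` be ANY set of at least `e^(-k) X` integers `m`, `1 ≤ m ≤ X`, where `4 (log X)² ≤ e^(-k) X`. Then at least
`c X² / (log (k + 1))⁴` of the integers `n ≤ 2 X²` are of the form `n = m² + p` with `m ∈ A`, `p` prime; `c > 0` is
an absolute constant. More generally at least `c β² X² / (log (k + 1))⁴` of them are of the form `n = m² + p` with
`m ∈ A`, `p ∈ B`, for any set `B` of at least `β X² / log X` primes `≤ X²`. So even `4 (log X)²` squares, chosen in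
an arbitrary way, together with the primes represent at least `c X² / (log log X)⁴` of the integers `n ≤ 2 X²`.

Proof. Cauchy–Schwarz and the sieve bound for pairs of primes with the difference `h = m² - m'²` lead to the sum of
`g(h)²`, `g(h) = ∏_{l ∣ h} (1 + 1 / l)`, over the pairs in `A`. The mean value of `g(m - m')^j + g(m + m')^j` over all
pairs is at most `(C log j)^j`; with `j = 4 k` and truncation at a power of `log k` the sum over the pairs in `A`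
is at most a power of `log k` times `|A|²`, however thin `A` is. The sieve bound is from the starting files
(`Pool.Agent.TH685.PairSig.pair_bound`).
-/

set_option autoImplicit false
set_option maxHeartbeats 1000000

open Finset

namespace Pool.Agent.Results.MP_83819a_nt.ThinSetsOfSquares

open Pool.Agent.H197R2.PG
open Pool.Agent.TH685.PairSig (pair_bound)

open Classical in
/-- The integers `n`, `1 ≤ n ≤ N`, of the form `n = m² + p` with `m ∈ A` and `p ∈ B`. -/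
noncomputable def represented (A B : Finset ℕ) (N : ℕ) : Finset ℕ :=
  (Icc 1 N).filter fun n : ℕ => ∃ m ∈ A, ∃ p ∈ B, n = m ^ 2 + p

/-- The primes `p ≤ N`. -/
def primesUpTo (N : ℕ) : Finset ℕ := (Icc 1 N).filter Nat.Prime

lemma alg1 {s t I V PQ : ℝ} (hs : 0 < s) (hI : 0 ≤ I) (h1 : (s * t) ^ 2 ≤ I * (s * t + V))
    (h2 : s * t ≤ V) (hV : V = PQ * s ^ 2) : t ^ 2 ≤ I * (2 * PQ) := by
  have h3 : (s * t) ^ 2 ≤ I * (2 * V) := by
    refine h1.trans ?_
    apply mul_le_mul_of_nonneg_left _ hI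
    linarith
  rw [hV] at h3
  have h4 : s ^ 2 * t ^ 2 ≤ s ^ 2 * (I * (2 * PQ)) := by nlinarith
  exact le_of_mul_le_mul_left h4 (by positivity)

lemma log_four (k : ℕ) (hk : 1 ≤ k) : 1 ≤ Real.log ((4 * k : ℕ) : ℝ) ∧
    Real.log ((4 * k : ℕ) : ℝ) ^ 4 ≤ 16 * Real.log ((k : ℝ) + 1) ^ 4 := by
  have hk1 : (1 : ℝ) ≤ k := by exact_mod_cast hk
  have h0 : 1 ≤ Real.log ((4 * k : ℕ) : ℝ) := by
    rw [Real.le_log_iff_exp_le (by push_cast; linarith)]
    have := Real.exp_one_lt_d9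
    push_cast
    linarith
  refine ⟨h0, ?_⟩
  have h1 : Real.log ((4 * k : ℕ) : ℝ) ≤ 2 * Real.log ((k : ℝ) + 1) := by
    rw [show (2 : ℝ) * Real.log ((k : ℝ) + 1) = ((2 : ℕ) : ℝ) * Real.log ((k : ℝ) + 1) by norm_num,
      ← Real.log_pow]
    apply Real.log_le_log (by push_cast; linarith)
    push_cast
    nlinarith [sq_nonneg ((k : ℝ) - 1)]
  calc Real.log ((4 * k : ℕ) : ℝ) ^ 4 ≤ (2 * Real.log ((k : ℝ) + 1)) ^ 4 := by gcongr
    _ = 16 * Real.log ((k : ℝ) + 1) ^ 4 := by ring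

theorem general : ∃ c : ℝ, 0 < c ∧ ∀ (k X : ℕ), 1 ≤ k → 3 ≤ X →
    4 * Real.log X ^ 2 ≤ Real.exp (-(k : ℝ)) * X → ∀ A : Finset ℕ, (∀ m ∈ A, 1 ≤ m ∧ m ≤ X) →
    Real.exp (-(k : ℝ)) * X ≤ #A → ∀ β : ℝ, 0 < β → ∀ B : Finset ℕ, (∀ p ∈ B, p.Prime ∧ p ≤ X ^ 2) →
      β * ((X : ℝ) ^ 2 / Real.log X) ≤ #B →
      c * β ^ 2 * ((X : ℝ) ^ 2 / Real.log ((k : ℝ) + 1) ^ 4) ≤ #(represented A B (2 * X ^ 2)) := by
  classical
  obtain ⟨C, hC, havg⟩ := Pool.Agent.Zk45.DR.avg_sq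
  obtain ⟨K, hK, hpair⟩ := pair_bound
  refine ⟨1 / (8 * (K * C)), by positivity, fun k X hk hX hkX A hA hAc β hβ B hB hBc => ?_⟩
  have hX3 : (3 : ℝ) ≤ X := by exact_mod_cast hX
  have hX0 : (0 : ℝ) < X := by linarith
  have hlog : 1 ≤ Real.log X := by
    rw [Real.le_log_iff_exp_le (by linarith)]
    have := Real.exp_one_lt_d9
    linarith
  obtain ⟨l, hl⟩ : ∃ l : ℝ, l = Real.log X := ⟨_, rfl⟩
  have hav := havg k X A hk hA hAc
  obtain ⟨l1, l2⟩ := log_four k hk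
  obtain ⟨L, hL⟩ : ∃ L : ℝ, L = Real.log ((4 * k : ℕ) : ℝ) := ⟨_, rfl⟩
  rw [← hL] at hav l1 l2
  rw [← hl] at hkX hBc hlog
  obtain ⟨s, hs⟩ : ∃ s : ℝ, s = (#A : ℝ) := ⟨_, rfl⟩
  obtain ⟨t, ht⟩ : ∃ t : ℝ, t = (#B : ℝ) := ⟨_, rfl⟩
  obtain ⟨W, hW⟩ : ∃ W : ℝ, W = (X : ℝ) ^ 2 / l ^ 2 := ⟨_, rfl⟩
  have hl0 : 0 < l := by linarith
  have hW0 : 0 < W := by rw [hW]; positivity
  have hsbig : 4 * l ^ 2 ≤ s := by rw [hs]; exact hkX.trans hAc
  have hs0 : 0 < s := lt_of_lt_of_le (by positivity) hsbig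
  rw [← hs] at hav
  obtain ⟨S', hS'⟩ : ∃ S' : Finset ℕ, S' = A.image (fun m => m ^ 2) := ⟨_, rfl⟩
  have hS'c : #S' = #A := by
    rw [hS']
    exact card_image_of_injective _ (Nat.pow_left_injective (n := 2) (by norm_num))
  rw [← hS'] at hav
  have hcs := Pool.Agent.TH685.TI.cs B S'
  rw [hS'c, ← hs, ← ht] at hcs
  have hpairs : ∑ z ∈ S'.offDiag, (#(B.filter (fun k => k + Nat.dist z.1 z.2 ∈ B)) : ℝ) ≤
      (K * (W / 4)) * (C * L ^ 4 * s ^ 2) := by
    have h1 : ∀ z ∈ S'.offDiag, (#(B.filter (fun k => k + Nat.dist z.1 z.2 ∈ B)) : ℝ) ≤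
        (K * (W / 4)) * gg (Nat.dist z.1 z.2) ^ 2 := by
      intro z hz
      rw [mem_offDiag] at hz
      have hd : 1 ≤ Nat.dist z.1 z.2 := Nat.dist_pos_of_ne hz.2.2
      have h3 := hpair (X ^ 2) (by nlinarith) 1 (Or.inl rfl) _ hd
      have h4 : ((B.filter (fun k => k + Nat.dist z.1 z.2 ∈ B) : Finset ℕ) : Set ℕ) ⊆
          {t : ℕ | t ≤ X ^ 2 ∧ t.Prime ∧ (Int.natAbs (1 * t + (Nat.dist z.1 z.2 : ℕ))).Prime} := by
        intro t ht
        rw [mem_coe, mem_filter] at ht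
        refine ⟨(hB t ht.1).2, (hB t ht.1).1, ?_⟩
        have e : Int.natAbs (1 * (t : ℤ) + (Nat.dist z.1 z.2 : ℕ)) = t + Nat.dist z.1 z.2 := by omega
        rw [e]
        exact (hB _ ht.2).1
      have h5 := Set.ncard_le_ncard h4 ((Set.finite_Iic (X ^ 2)).subset (fun t ht => ht.1))
      rw [Set.ncard_coe_finset] at h5
      refine le_trans (by exact_mod_cast h5) (h3.trans (le_of_eq ?_))
      push_cast
      rw [Real.log_pow, ← hl, hW]
      push_cast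
      ring
    refine (Finset.sum_le_sum h1).trans ?_
    rw [← Finset.mul_sum]
    exact mul_le_mul_of_nonneg_left hav (by positivity)
  have hBle : t ≤ (X : ℝ) ^ 2 := by
    have h1 : B ⊆ Icc 1 (X ^ 2) := fun q hq => by
      rw [mem_Icc]
      exact ⟨(hB q hq).1.one_lt.le, (hB q hq).2⟩
    have h2 := card_le_card h1
    rw [Nat.card_Icc, Nat.add_sub_cancel] at h2
    rw [ht]
    exact_mod_cast h2
  have hL4 : 1 ≤ L ^ 4 := one_le_pow₀ l1
  have hKCL : 1 ≤ K * (C * L ^ 4) := by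
    have : 1 ≤ C * L ^ 4 := by nlinarith
    nlinarith
  have hdiag : s * t ≤ (K * (W / 4)) * (C * L ^ 4 * s ^ 2) := by
    have h1 : (X : ℝ) ^ 2 ≤ W / 4 * s := by
      have h2 : (X : ℝ) ^ 2 = W * l ^ 2 := by rw [hW]; field_simp
      rw [h2]
      nlinarith
    have h2 : s * t ≤ s * (W / 4 * s) := mul_le_mul_of_nonneg_left (hBle.trans h1) hs0.le
    have h3 : 0 ≤ W / 4 * s ^ 2 := by positivity
    calc s * t ≤ s * (W / 4 * s) := h2
      _ = 1 * (W / 4 * s ^ 2) := by ring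
      _ ≤ K * (C * L ^ 4) * (W / 4 * s ^ 2) := mul_le_mul_of_nonneg_right hKCL h3
      _ = _ := by ring
  obtain ⟨I, hI⟩ : ∃ I : Finset ℕ, I = (S' ×ˢ B).image (fun z => z.1 + z.2) := ⟨_, rfl⟩
  rw [← hI] at hcs
  obtain ⟨i, hi⟩ : ∃ i : ℝ, i = (#I : ℝ) := ⟨_, rfl⟩
  rw [← hi] at hcs
  have hi0 : 0 ≤ i := by rw [hi]; positivity
  have hcs' : (s * t) ^ 2 ≤ i * (s * t + (K * (W / 4)) * (C * L ^ 4 * s ^ 2)) :=
    hcs.trans (mul_le_mul_of_nonneg_left (by linarith) hi0)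
  have hmain := alg1 (PQ := K * (W / 4) * (C * L ^ 4)) hs0 hi0 hcs' hdiag (by ring)
  have hB2 : (β * ((X : ℝ) ^ 2 / l)) ^ 2 ≤ t ^ 2 := by
    rw [ht]
    exact pow_le_pow_left₀ (by positivity) hBc 2
  have hk0 : 0 < Real.log ((k : ℝ) + 1) := Real.log_pos (by
    have : (1 : ℝ) ≤ k := by exact_mod_cast hk
    linarith)
  obtain ⟨R, hR⟩ : ∃ R : ℝ, R = Real.log ((k : ℝ) + 1) ^ 4 := ⟨_, rfl⟩
  have hR0 : 0 < R := by rw [hR]; positivity
  rw [← hR] at l2 ⊢
  have hfin : 1 / (8 * (K * C)) * β ^ 2 * ((X : ℝ) ^ 2 / R) ≤ i := by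
    have h1 := hB2.trans hmain
    have e1 : (β * ((X : ℝ) ^ 2 / l)) ^ 2 = (β ^ 2 * (X : ℝ) ^ 2) * W := by
      rw [hW]; field_simp
    have e2 : i * (2 * (K * (W / 4) * (C * L ^ 4))) = (i * (K * C * L ^ 4 / 2)) * W := by ring
    rw [e1, e2] at h1
    have h2 : β ^ 2 * (X : ℝ) ^ 2 ≤ i * (K * C * L ^ 4 / 2) := le_of_mul_le_mul_right h1 hW0
    have hKC : 0 < K * C := by positivity
    have h3 : i * (K * C * L ^ 4 / 2) ≤ i * (K * C * (16 * R) / 2) := by
      apply mul_le_mul_of_nonneg_left _ hi0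
      have := mul_le_mul_of_nonneg_left l2 hKC.le
      linarith
    have e : 1 / (8 * (K * C)) * β ^ 2 * ((X : ℝ) ^ 2 / R) =
        (β ^ 2 * (X : ℝ) ^ 2) / (8 * (K * C) * R) := by
      field_simp
    rw [e, div_le_iff₀ (by positivity)]
    have h4 := h2.trans h3
    linarith
  refine hfin.trans ?_
  rw [hi]
  have hcard : #I ≤ #(represented A B (2 * X ^ 2)) := by
    apply card_le_card
    intro n hn
    rw [hI, mem_image] at hn
    obtain ⟨z, hz, rfl⟩ := hn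
    rw [mem_product, hS', mem_image] at hz
    obtain ⟨⟨m, hm, hmz⟩, hz2⟩ := hz
    have hmz' : m ^ 2 = z.1 := hmz
    have h1 := hA m hm
    have h2 := hB z.2 hz2
    have h3 : m ^ 2 ≤ X ^ 2 := Nat.pow_le_pow_left h1.2 2
    have h4 := h2.1.one_lt
    unfold represented
    rw [mem_filter, mem_Icc]
    exact ⟨⟨by omega, by omega⟩, m, hm, z.2, hz2, by rw [hmz']⟩
  exact_mod_cast hcard

lemma primes_many {X : ℕ} (hX : 11 ≤ X) :
    1 / 4 * ((X : ℝ) ^ 2 / Real.log X) ≤ #(primesUpTo (X ^ 2)) := by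
  have hX11 : (11 : ℝ) ≤ X := by exact_mod_cast hX
  have h1 := Chebyshev.pi_ge (X ^ 2)
  have h2 : Nat.primeCounting (X ^ 2) = #(primesUpTo (X ^ 2)) := by
    rw [Nat.primeCounting, Nat.primeCounting', Nat.count_eq_card_filter_range]
    congr 1
    ext n
    simp only [primesUpTo, mem_filter, mem_range, mem_Icc]
    constructor
    · rintro ⟨h3, h4⟩; exact ⟨⟨h4.one_lt.le, by omega⟩, h4⟩
    · rintro ⟨⟨h3, h4⟩, h5⟩; exact ⟨by omega, h5⟩
  rw [h2] at h1
  refine le_trans ?_ h1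
  have hlog : 0 < Real.log X := Real.log_pos (by linarith)
  push_cast
  rw [Real.log_pow]
  have h3 : Real.log ((X : ℝ) ^ 2 + 1) ≤ 2 * X := by
    have h4 : (X : ℝ) ^ 2 + 1 ≤ (X + 1) ^ 2 := by nlinarith
    calc Real.log ((X : ℝ) ^ 2 + 1) ≤ Real.log (((X : ℝ) + 1) ^ 2) :=
          Real.log_le_log (by positivity) h4
      _ = 2 * Real.log ((X : ℝ) + 1) := by rw [Real.log_pow]; norm_num
      _ ≤ 2 * X := by
          have := Real.log_le_sub_one_of_pos (show (0 : ℝ) < (X : ℝ) + 1 by linarith)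
          linarith
  have h5 := Real.log_two_gt_d9
  rw [← mul_div_assoc, div_le_div_iff₀ hlog (by push_cast; positivity)]
  push_cast
  have h6 : 1 / 2 * (X : ℝ) ^ 2 ≤ (X : ℝ) ^ 2 * Real.log 2 - Real.log ((X : ℝ) ^ 2 + 1) := by
    nlinarith
  nlinarith [mul_le_mul_of_nonneg_right h6 hlog.le]

/-- **Theorem.** There is an absolute constant `c > 0` such that for all integers `k ≥ 1`, `X ≥ 3` with
`4 (log X)² ≤ e^(-k) X` and EVERY set `A` of at least `e^(-k) X` integers in `[1, X]`: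
(1) at least `c X² / (log (k + 1))⁴` integers `n ≤ 2 X²` are of the form `n = m² + p` with `m ∈ A` and a prime
`p ≤ X²`;
(2) for every `β > 0` and every set `B` of at least `β X² / log X` primes `≤ X²` at least
`c β² X² / (log (k + 1))⁴` integers `n ≤ 2 X²` are of the form `n = m² + p` with `m ∈ A` and `p ∈ B`. -/
theorem result : ∃ c : ℝ, 0 < c ∧ ∀ (k X : ℕ), 1 ≤ k → 3 ≤ X →
    4 * Real.log X ^ 2 ≤ Real.exp (-(k : ℝ)) * X → ∀ A : Finset ℕ, (∀ m ∈ A, 1 ≤ m ∧ m ≤ X) →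
    Real.exp (-(k : ℝ)) * X ≤ #A →
      c * ((X : ℝ) ^ 2 / Real.log ((k : ℝ) + 1) ^ 4) ≤
        #(represented A (primesUpTo (X ^ 2)) (2 * X ^ 2)) ∧
      ∀ β : ℝ, 0 < β → ∀ B : Finset ℕ, (∀ p ∈ B, p.Prime ∧ p ≤ X ^ 2) →
        β * ((X : ℝ) ^ 2 / Real.log X) ≤ #B →
        c * β ^ 2 * ((X : ℝ) ^ 2 / Real.log ((k : ℝ) + 1) ^ 4) ≤ #(represented A B (2 * X ^ 2)) := by
  obtain ⟨c, hc, h⟩ := general
  refine ⟨c / 16, by positivity, fun k X hk hX hkX A hA hAc => ⟨?_, fun β hβ B hB hBc => ?_⟩⟩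
  · have hX3 : (3 : ℝ) ≤ X := by exact_mod_cast hX
    have hlog : 1 ≤ Real.log X := by
      rw [Real.le_log_iff_exp_le (by linarith)]
      have := Real.exp_one_lt_d9
      linarith
    have hX11 : 11 ≤ X := by
      have h1 : Real.exp (-(k : ℝ)) ≤ Real.exp (-1) := by
        apply Real.exp_le_exp.2
        have : (1 : ℝ) ≤ k := by exact_mod_cast hk
        linarith
      have h2 : (4 : ℝ) ≤ Real.exp (-1) * X := by
        have h3 : (4 : ℝ) ≤ 4 * Real.log X ^ 2 := by nlinarith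
        exact h3.trans (hkX.trans (mul_le_mul_of_nonneg_right h1 (by linarith)))
      have h3 : 4 * Real.exp 1 ≤ X := by
        have h4 : Real.exp (-1) * Real.exp 1 = 1 := by rw [← Real.exp_add]; norm_num
        nlinarith [Real.exp_pos 1, mul_le_mul_of_nonneg_right h2 (Real.exp_pos 1).le]
      have h4 : (10 : ℝ) < X := by
        have := Real.exp_one_gt_d9
        linarith
      have : 10 < X := by exact_mod_cast h4
      omega
    have := h k X hk hX hkX A hA hAc (1 / 4) (by norm_num) (primesUpTo (X ^ 2))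
      (fun p hp => by
        rw [primesUpTo, mem_filter, mem_Icc] at hp
        exact ⟨hp.2, hp.1.2⟩) (primes_many hX11)
    refine le_trans (le_of_eq ?_) this
    ring
  · refine le_trans ?_ (h k X hk hX hkX A hA hAc β hβ B hB hBc)
    have h1 : 0 ≤ β ^ 2 * ((X : ℝ) ^ 2 / Real.log ((k : ℝ) + 1) ^ 4) := by
      have : 0 ≤ Real.log ((k : ℝ) + 1) := Real.log_nonneg (by
        have : (0 : ℝ) ≤ k := Nat.cast_nonneg k
        linarith)
      positivity
    nlinarith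

end Pool.Agent.Results.MP_83819a_nt.ThinSetsOfSquares
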